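import Pool.Agent.Lib.TopBw.Main

/-!
# Topological bandwidth of trees is NP-hard
-/

set_option autoImplicit false

namespace Pool.Agent.Results.MP_06c883_lc.TopBwTreeHard

open Turing Pool.Agent.Lib.CookLevin Pool.Agent.Lib.TopBw

/-- **Main theorem.** TOPBW-TREE (given a tree `T` and a positive integer `k`, decide whether the
topological bandwidth of `T` is at most `k`) is NP-hard: every problem `L` in NP has a polynomial-time
many-one reduction to it, which maps every word to a tree and a positive integer (in unary). -/
theorem result :
    (∀ L : Word → Prop, InNP L → ∃ f : Word → Inst,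
      Nonempty (TM2ComputableInPolyTime (id : Word → List Bool) encodeInst f) ∧
      (∀ x, (f x).1.2.IsTree ∧ 1 ≤ (f x).2) ∧
      ∀ x, L x ↔ topBandwidth (f x).1.2 ≤ (f x).2) ∧
    NPHard TopBwTree :=
  ⟨reduction, npHard_topBwTree⟩

end Pool.Agent.Results.MP_06c883_lc.TopBwTreeHard
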